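import Pool.Agent.Q170.GA.Ex

namespace Pool.Agent.Results.MP_9b412f_an.InfinitelyMany

open Q170.GA

/-- There are quadratics with hidden hyperplane convexity, `S ≠ ∅`, `conv(S) ≠ ℝⁿ`, such that
`conv(S)` is not described by finitely many good aggregations. -/
theorem result : ∃ (n m : ℕ) (Q : Fin m → Matrix (Fin (n + 1)) (Fin (n + 1)) ℝ),
    1 ≤ n ∧ 1 ≤ m ∧ (∀ i, (Q i).IsSymm) ∧ HHC Q ∧ (SS Q).Nonempty ∧
    convexHull ℝ (SS Q) ≠ Set.univ ∧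
    ¬ ∃ (r : ℕ) (lam : Fin r → Fin m → ℝ), 1 ≤ r ∧ (∀ j, Good Q (lam j)) ∧
      convexHull ℝ (SS Q) = ⋂ j, {x | fv (agg Q (lam j)) x < 0} := by
  refine ⟨13, 3, QQ, by norm_num, by norm_num, fun i => ?_, QQ_HHC, SS_nonempty, hull_ne_univ,
    not_finite⟩
  obtain ⟨α, β, γ, δ, hi⟩ := QQ_form i
  rw [hi]
  exact MM_symm α β γ δ

end Pool.Agent.Results.MP_9b412f_an.InfinitelyMany
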